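import Pool.Agent.H7.KR.Stmts

/-!
# Row LCB of board kr
-/

set_option autoImplicit false

open Finset

namespace Pool.KR

open Pool.Agent.H23.KT Pool.Agent.H46.KW Pool.KQ

namespace LCBAux

variable {V : Type} [DecidableEq V] {G : SimpleGraph V}

lemma cn_singleton (W : Finset V) (x : V) : cn G W {x} = nb G W x := by
  ext v
  rw [mem_cn, mem_nb]
  simp

lemma clq_one (W : Finset V) : clq G W 1 = W.image (fun x => ({x} : Finset V)) := by
  ext S
  rw [mem_clq, mem_image]
  constructor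
  · rintro ⟨h1, h2, -⟩
    obtain ⟨x, rfl⟩ := card_eq_one.1 h2
    exact ⟨x, h1 (mem_singleton_self x), rfl⟩
  · rintro ⟨x, hx, rfl⟩
    refine ⟨singleton_subset_iff.2 hx, card_singleton x, ?_⟩
    rw [coe_singleton]
    exact SimpleGraph.isClique_singleton x

lemma sum_clq_one (W : Finset V) (F : Finset V → ℕ) :
    ∑ R ∈ clq G W 1, F R = ∑ x ∈ W, F {x} := by
  rw [clq_one, sum_image]
  intro x _ y _ h
  exact singleton_injective h

lemma bal_two (n : ℕ) : bal 2 n = (n / 2) * (n - n / 2) := by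
  unfold bal
  rcases Nat.mod_two_eq_zero_or_one n with h | h
  · rw [h, Nat.sub_zero, pow_zero, mul_one, sq]
    congr 1
    omega
  · rw [h]
    simp only [Nat.reduceSub, pow_one]
    congr 1
    omega

/-- degree sum of squares -/
lemma sum_sq (W : Finset V) :
    2 * (W.card : ℤ) * kc G W 2 - W.card * bal 2 W.card ≤
      ∑ x ∈ W, ((nb G W x).card : ℤ) ^ 2 := by
  have hdeg : ∑ x ∈ W, ((nb G W x).card : ℤ) = 2 * kc G W 2 := by
    have h := sum_card_cn (G := G) W 1
    rw [sum_clq_one] at h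
    simp only [cn_singleton] at h
    exact_mod_cast h
  set n := W.card with hn
  set s : ℤ := ((n / 2 : ℕ) : ℤ) with hs
  set t : ℤ := ((n - n / 2 : ℕ) : ℤ) with ht
  have hst : s + t = n := by omega
  have hb : (bal 2 n : ℤ) = s * t := by rw [bal_two, hs, ht, Nat.cast_mul]
  have hts : t = s ∨ t = s + 1 := by omega
  have h0 : 0 ≤ ∑ x ∈ W, (((nb G W x).card : ℤ) - s) * (((nb G W x).card : ℤ) - t) := by
    apply sum_nonneg
    intro x _
    rcases hts with h | h
    · rw [h]; exact mul_self_nonneg _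
    · rw [h]
      rcases lt_or_ge s ((nb G W x).card : ℤ) with h1 | h1
      · exact mul_nonneg (by omega) (by omega)
      · exact mul_nonneg_of_nonpos_of_nonpos (by omega) (by omega)
  have h1 : ∑ x ∈ W, (((nb G W x).card : ℤ) - s) * (((nb G W x).card : ℤ) - t)
      = ∑ x ∈ W, ((nb G W x).card : ℤ) ^ 2 - (s + t) * ∑ x ∈ W, ((nb G W x).card : ℤ)
        + n * (s * t) := by
    rw [mul_sum, ← sum_sub_distrib]
    have h2 : (n : ℤ) * (s * t) = ∑ _x ∈ W, s * t := by
      rw [sum_const, nsmul_eq_mul]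
    rw [h2, ← sum_add_distrib]
    apply sum_congr rfl
    intro x _
    ring
  rw [h1, hst, hdeg] at h0
  rw [hb]
  linarith

end LCBAux

open LCBAux

theorem lcb (h1 : ZSMStmt) (h2 : BALStmt) : LCBStmt := by
  intro r hr a ha V _ G W hCB hW
  obtain ⟨-, hbal, -⟩ := h2
  set n := W.card with hn
  set e := kc G W 2 with he
  have hz : ∀ S ∈ clq G W 2, ∑ w ∈ S, nz G W S w + ze G 0 W S = n := fun S hS =>
    h1 G 0 W S hCB hS
  have hsumz : ∑ S ∈ clq G W 2, ∑ w ∈ S, nz G W S w + ∑ S ∈ clq G W 2, ze G 0 W S = e * n := by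
    rw [← sum_add_distrib, sum_congr rfl hz, sum_const, smul_eq_mul, he, kc_eq]
  have hfac : ∑ S ∈ clq G W 2, ∑ w ∈ S, nz G W S w = ∑ x ∈ W, (nb G W x).card ^ 2 := by
    have h := sum_facets (G := G) W 1 (fun R _ => (cn G W R).card)
    unfold nz
    rw [h, sum_clq_one W (fun R => ∑ _z ∈ cn G W R, (cn G W R).card)]
    apply sum_congr rfl
    intro x _
    rw [cn_singleton, sum_const, smul_eq_mul, sq]
  have hsq := sum_sq (G := G) W
  rw [← hn, ← he] at hsq
  set Z := ∑ S ∈ clq G W 2, ze G 0 W S with hZ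
  have hZ2 : (Z : ℝ) ≤ n * ((bal 2 n : ℝ) - e) := by
    have h3 : (Z : ℤ) ≤ n * ((bal 2 n : ℤ) - e) := by
      have h4 : (∑ x ∈ W, ((nb G W x).card : ℤ) ^ 2) + Z = e * n := by
        rw [hfac] at hsumz
        exact_mod_cast hsumz
      linarith
    exact_mod_cast h3
  have hzyk : (e : ℝ) ≤ bal 2 n := by
    have := zyk (G := G) 1 W hCB
    exact_mod_cast this
  have hb := hbal 2 a n (2 * a + r) (by norm_num) hW (by omega)
  have hsum : ∑ S ∈ clq G W 2, min (r : ℝ)
      (((2 * a + r : ℕ) : ℝ) - n + 5 / 16 * ze G 0 W S) ≤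
      (((2 * a + r : ℕ) : ℝ) - n) * e + 5 / 16 * Z := by
    refine (sum_le_sum (fun S _ => min_le_right _ _)).trans (le_of_eq ?_)
    rw [sum_add_distrib, sum_const, nsmul_eq_mul, ← mul_sum, hZ, he, kc_eq]
    push_cast
    ring
  refine hsum.trans ?_
  set M : ℝ := ((2 * a + r : ℕ) : ℝ) with hM
  set B : ℝ := (bal 2 n : ℝ) with hB
  have hnM : (n : ℝ) ≤ M := by rw [hM]; exact_mod_cast hW
  have hM2 : M ≤ 2 * a + 2 := by
    have : 2 * a + r ≤ 2 * a + 2 := by omega
    rw [hM]; exact_mod_cast this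
  have ha2 : (2 : ℝ) ≤ a := by exact_mod_cast ha
  have hn0 : (0 : ℝ) ≤ n := by positivity
  have hε : 0 ≤ B - e := by linarith
  have h5 : 5 / 16 * (n : ℝ) - (M - n) ≤ a := by nlinarith
  have h6 : (B - e) * (5 / 16 * (n : ℝ) - (M - n)) ≤ (B - e) * a :=
    mul_le_mul_of_nonneg_left h5 hε
  nlinarith

end Pool.KR
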